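import Mathlib
import Pool.Agent.Lib.MP_1eeaa7_nt.HypMain

set_option autoImplicit false

open PowerSeries

namespace Pool.Agent.Results.MP_1eeaa7_nt.HypergeometricSums

/-- The power series `∑ P(k) x^k / (k! q(1) ⋯ q(k))`. -/
noncomputable def hypSeries (P q : Polynomial ℂ) : ℂ⟦X⟧ :=
  PowerSeries.mk fun k =>
    P.eval (k : ℂ) / ((k.factorial : ℂ) * ∏ l ∈ Finset.range k, q.eval ((l : ℂ) + 1))

theorem result (q : Polynomial ℂ) (hq : ∀ n : ℕ, q.eval ((n : ℂ) + 1) ≠ 0)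
    {ι : Type} (T : Finset ι) (P : ι → Polynomial ℂ) (A B : ι → ℂ⟦X⟧)
    (R : Subring ℂ) (hR : ∃ S : Set ℂ, S.Finite ∧ R = Subring.closure S)
    (s : ℕ) (hs : 1 ≤ s) (hA0 : ∀ i ∈ T, ∀ n < s, coeff n (A i) = 0)
    (hAs : ∀ i ∈ T, coeff s (A i) ≠ 0) (hA : ∀ i ∈ T, ∀ n, coeff n (A i) ∈ R)
    (a : ℕ) (hB : ∀ i ∈ T, ∀ n, ∃ d : ℕ, d ≠ 0 ∧
      (∀ p e : ℕ, p.Prime → p ^ e ∣ d → p ^ e ≤ (n + 1) ^ a) ∧ (d : ℂ) * coeff n (B i) ∈ R) :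
    ∃ F : Finset (ℕ × ℕ),
      {n : ℕ | coeff n (∑ i ∈ T, (hypSeries (P i) q).subst (A i) * B i) = 0} =
        ⋃ ad ∈ F, {m : ℕ | ∃ k : ℕ, m = ad.1 + ad.2 * k} := by
  obtain ⟨S, hS, rfl⟩ := hR
  have e : ∀ i, hypSeries (P i) q = Pool.Agent.Lib.MP_1eeaa7_nt.hyp (P i) q := fun i => by
    rw [hypSeries, Pool.Agent.Lib.MP_1eeaa7_nt.hyp]
    simp only [div_eq_mul_inv]
  simp only [e]
  exact Pool.Agent.Lib.MP_1eeaa7_nt.finAP_hyp S hS hq T (by omega) a P A B hA hA0 hAs hB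

end Pool.Agent.Results.MP_1eeaa7_nt.HypergeometricSums
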