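import Mathlib
import Pool.Agent.Lib.MP_1eeaa7_nt.OrderMain

set_option autoImplicit false

open PowerSeries

namespace Pool.Agent.Results.MP_1eeaa7_nt.OrderOne

theorem result (P Q : Polynomial ℂ) (hP : P ≠ 0) (f : ℂ⟦X⟧)
    (hf : (P : ℂ⟦X⟧) * d⁄dX ℂ f = (Q : ℂ⟦X⟧) * f) (htr : Transcendental (Polynomial ℂ) f)
    (Λ : Subring ℂ) (hΛ : ∃ S : Set ℂ, S.Finite ∧ Λ = Subring.closure S)
    (a : ℕ) (h : ℂ⟦X⟧)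
    (hh : ∀ n : ℕ, ∃ d : ℕ, d ≠ 0 ∧
      (∀ p e : ℕ, p.Prime → p ^ e ∣ d → p ^ e ≤ (n + 1) ^ a) ∧ (d : ℂ) * coeff n h ∈ Λ) :
    ∃ F : Finset (ℕ × ℕ),
      {n : ℕ | coeff n (h * f) = 0} =
        ⋃ ad ∈ F, {m : ℕ | ∃ k : ℕ, m = ad.1 + ad.2 * k} := by
  obtain ⟨S, hS, rfl⟩ := hΛ
  exact Pool.Agent.Lib.MP_1eeaa7_nt.finAP_orderOne_transcendental hP hf htr hS (a := a) hh

end Pool.Agent.Results.MP_1eeaa7_nt.OrderOne
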