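import Mathlib
import Pool.Agent.Lib.MP_1eeaa7_nt.SystemMain

set_option autoImplicit false

open PowerSeries

namespace Pool.Agent.Results.MP_1eeaa7_nt.PCurvature

/-- `∇ W = x W' + W B` on square matrices of power series. -/
noncomputable def nabla {K : Type*} [Field K] {m : ℕ} (B W : Matrix (Fin m) (Fin m) K⟦X⟧) :
    Matrix (Fin m) (Fin m) K⟦X⟧ :=
  W.map (fun f => X * d⁄dX K f) + W * B

theorem result (K : Subfield ℂ) (v : AbsoluteValue K ℝ) (hv : IsNonarchimedean v)
    (p : ℕ) (hp : p.Prime) (hvp : v (p : K) < 1) (m : ℕ)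
    (B : Matrix (Fin m) (Fin m) K⟦X⟧) (hB : ∀ i l n, v (coeff n (B i l)) ≤ 1)
    (Q : Polynomial K) (hQ : ∀ n, v (Q.coeff n) ≤ 1) (hQ0 : ∀ n : ℕ, 1 ≤ n → Q.eval (n : K) ≠ 0)
    (hQB : Polynomial.aeval (B.map constantCoeff) Q = 0)
    (D : ℕ → Matrix (Fin m) (Fin m) K⟦X⟧) (hD0 : D 0 = 1)
    (hD : ∀ n, (X : K⟦X⟧) • D (n + 1) =
      ∑ r ∈ Finset.range (Q.natDegree + 1), Q.coeff r • (nabla B)^[r] (D n))
    (L : ℕ) (hL : 1 ≤ L)
    (hDp : ∀ i l, v ((((D p).map constantCoeff) ^ L - 1) i l) < 1)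
    (g : Fin m → K⟦X⟧) (C : ℝ) (A : ℕ) (hg : ∀ i n, v (coeff n (g i)) ≤ C * ((n : ℝ) + 1) ^ A)
    (Y : Fin m → ℂ⟦X⟧)
    (hY : ∀ i, X * d⁄dX ℂ (Y i) = ∑ l, PowerSeries.map K.subtype (B i l) * Y l) :
    ∃ F : Finset (ℕ × ℕ),
      {n : ℕ | coeff n (∑ i, PowerSeries.map K.subtype (g i) * Y i) = 0} =
        ⋃ ad ∈ F, {m : ℕ | ∃ k : ℕ, m = ad.1 + ad.2 * k} := by
  classical
  have hult : IsUltrametricDist (WithAbs v) :=
    IsUltrametricDist.isUltrametricDist_of_isNonarchimedean_norm fun x y =>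
      hv ((WithAbs.equiv v) x) ((WithAbs.equiv v) y)
  have hchar : CharZero (WithAbs v) := by
    refine ⟨fun a b h => ?_⟩
    have h1 := congrArg (WithAbs.equiv v) h
    rw [map_natCast, map_natCast] at h1
    exact Nat.cast_injective h1
  let Φ : K →+* WithAbs v := (WithAbs.equiv v).symm.toRingHom
  have hΦ : ∀ x, ‖Φ x‖ = v x := fun x => rfl
  -- rows of the matrices `D n`
  have hrow : ∀ (W : Matrix (Fin m) (Fin m) K⟦X⟧) (i : Fin m),
      (nabla B W) i = Pool.Agent.Lib.MP_1eeaa7_nt.thE B (W i) := by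
    intro W i
    funext l
    rfl
  have hrowr : ∀ (r : ℕ) (W : Matrix (Fin m) (Fin m) K⟦X⟧) (i : Fin m),
      ((nabla B)^[r] W) i = ((Pool.Agent.Lib.MP_1eeaa7_nt.thE B) ^ r) (W i) := by
    intro r
    induction r with
    | zero => intro W i; rfl
    | succ r ih =>
      intro W i
      rw [Function.iterate_succ_apply, ih, hrow, pow_succ, Module.End.mul_apply]
  have hrowD : ∀ (n : ℕ) (i : Fin m), (D n) i = ((Pool.Agent.Lib.MP_1eeaa7_nt.dE B Q) ^ n)
      (fun l => PowerSeries.C (Pi.single (M := fun _ => K) i 1 l)) := by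
    intro n
    induction n with
    | zero =>
      intro i
      rw [hD0]
      funext l
      simp only [pow_zero, Module.End.one_apply, Matrix.one_apply, Pi.single_apply]
      by_cases h : i = l
      · simp [h]
      · simp [h, Ne.symm h]
    | succ n ih =>
      intro i
      have h1 : (X : K⟦X⟧) • (D (n + 1) i) = (Polynomial.aeval (Pool.Agent.Lib.MP_1eeaa7_nt.thE B) Q)
          (D n i) := by
        have h2 := congrFun (hD n) i
        rw [Polynomial.aeval_eq_sum_range, LinearMap.sum_apply]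
        refine Eq.trans h2 ?_
        funext l
        rw [Matrix.sum_apply, Finset.sum_apply]
        refine Finset.sum_congr rfl fun r _ => ?_
        rw [LinearMap.smul_apply, ← hrowr]
        rfl
      rw [← Pool.Agent.Lib.MP_1eeaa7_nt.x_d hQB, Module.End.mul_apply] at h1
      have h3 : D (n + 1) i = Pool.Agent.Lib.MP_1eeaa7_nt.dE B Q (D n i) := by
        funext l
        have h4 := congrFun h1 l
        have h5 : X * (D (n + 1) i l) = X * (Pool.Agent.Lib.MP_1eeaa7_nt.dE B Q (D n i) l) := h4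
        exact mul_left_cancel₀ X_ne_zero h5
      rw [h3, ih, pow_succ', Module.End.mul_apply]
  have hmat : Pool.Agent.Lib.MP_1eeaa7_nt.mat0 B Q p = (D p).map constantCoeff := by
    refine Matrix.ext fun i l => ?_
    show constantCoeff (((Pool.Agent.Lib.MP_1eeaa7_nt.dE B Q) ^ p)
      (fun l => PowerSeries.C (Pi.single (M := fun _ => K) i 1 l)) l) = constantCoeff (D p i l)
    rw [← hrowD p i]
  have hC : 0 ≤ max C 0 := le_max_right _ _
  exact Pool.Agent.Lib.MP_1eeaa7_nt.finAP_system hp (k := WithAbs v) (by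
      rw [← map_natCast Φ p, hΦ]; exact hvp) K.subtype Φ hY hQB
    (fun n => by
      have := hQ0 (n + 1) (by omega)
      push_cast at this
      exact this)
    (fun n => hQ n) (fun i l n => hB i l n) (L := L) (by omega)
    (fun i l => by rw [hmat]; exact hDp i l) hC (A := A)
    (fun i n => by
      rw [hΦ]
      refine (hg i n).trans ?_
      push_cast
      exact mul_le_mul_of_nonneg_right (le_max_left _ _) (by positivity))

end Pool.Agent.Results.MP_1eeaa7_nt.PCurvature
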