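import Mathlib
import Pool.Agent.Lib.MP_1eeaa7_nt.PS.PSMain

set_option autoImplicit false

open PowerSeries

namespace Pool.Agent.Results.MP_1eeaa7_nt.PowerSaving

theorem result (m : ℕ) (p : ℕ → Polynomial ℂ) (hp : ∃ i ≤ m, p i ≠ 0) (r : ℕ) (hr1 : 1 ≤ r)
    (hr : ∀ i ≤ m, ∀ i' ≤ m, ∀ k k', (p i).coeff k ≠ 0 → (p i').coeff k' ≠ 0 →
      i + k' ≤ i' + k + r) :
    ∃ q : ℕ, 0 < q ∧ ∃ C : ℝ, ∀ f : ℂ⟦X⟧,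
      ∑ i ∈ Finset.range (m + 1), (p i : ℂ⟦X⟧) * (⇑(d⁄dX ℂ))^[i] f = 0 →
      (∃ F : Finset (ℕ × ℕ), {n : ℕ | ∀ k, coeff (n + q * k) f = 0} =
        ⋃ ad ∈ F, {m : ℕ | ∃ k : ℕ, m = ad.1 + ad.2 * k}) ∧
      ∀ M N : ℕ, 1 ≤ N →
        (({n : ℕ | M ≤ n ∧ n < M + N ∧ coeff n f = 0 ∧
          ∃ k, coeff (n + q * k) f ≠ 0}.ncard : ℕ) : ℝ) ≤
          C * (N : ℝ) ^ (1 - 1 / (2 * (r : ℝ) - 1)) :=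
  Pool.Agent.Lib.MP_1eeaa7_nt.PS.ode_main m p hp r hr1 hr

end Pool.Agent.Results.MP_1eeaa7_nt.PowerSaving
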